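import Mathlib
import Pool.Agent.Y868.TC.P4

/-!
# Primes `p` with `f(p)` prime: almost all polynomials with given constant term

The argument is a prime `p`, and the values are those of `f_i = X (P_i + a_i X + b_i) + c_i`: the
constant terms `c_i` (for instance `1`) and all the coefficients other than those of `X` and `X²` are
given. For all but a proportion `(log x)^(-U)` of the choices of these two coefficients in each
polynomial, the number of primes `p` with all `|f_i(p)|` prime follows the formula of Bateman and Horn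
(Bateman and Stemmler) in all windows `(u, v] ⊆ [1, x]` at once; the constant is cut at a power of
`log x`.

Proof. The primes among the values are replaced by their sieve model in one polynomial after the other,
with weights which include the condition that the argument is prime (Fourier analysis in the two
coefficients, large sieve, theorem of Bombieri and Vinogradov). The remaining sum over primes `p` with
rough values `f_i(p)` is compared with the sum over rough arguments by Bonferroni's inequalities and the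
theorem of Bombieri and Vinogradov.
-/

set_option autoImplicit false

namespace Pool.Agent.Results.MP_82233c_nt.AlmostAllPolynomials

open Finset
open Polynomial (X C)
open scoped Polynomial

/-- the polynomial `X (P + a X + b) + c` -/
noncomputable def poly (P : ℤ[X]) (a b : ℕ) (c : ℤ) : ℤ[X] := X * (P + C (a : ℤ) * X + C (b : ℤ)) + C c

/-- the number of primes `p` with `u < p ≤ v` for which all `|f_i(p)|` are primes -/
noncomputable def count {k : ℕ} (f : Fin k → ℤ[X]) (u v : ℕ) : ℕ :=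
  #((Ioc u v).filter (fun p : ℕ => p.Prime ∧ ∀ i, ((f i).eval (p : ℤ)).natAbs.Prime))

/-- the product of `X` and the `f_i` has no fixed prime divisor -/
def NoFixed {k : ℕ} (f : Fin k → ℤ[X]) : Prop := ∀ p : ℕ, p.Prime → ∃ n : ℤ, ¬ (p : ℤ) ∣ n * ∏ i, (f i).eval n

/-- the number of zeros modulo `p` of the product of `X` and the `f_i` -/
noncomputable def omega {k : ℕ} (f : Fin k → ℤ[X]) (p : ℕ) : ℕ :=
  #((range p).filter (fun n : ℕ => (p : ℤ) ∣ n * ∏ i, (f i).eval (n : ℤ)))

/-- the constant of Bateman and Horn of the system `X, f_1, …, f_k`, cut at `z` -/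
noncomputable def sing {k : ℕ} (f : Fin k → ℤ[X]) (z : ℕ) : ℝ :=
  ∏ p ∈ (Icc 1 z).filter Nat.Prime, (1 - (omega f p : ℝ) / p) / (1 - 1 / (p : ℝ)) ^ (k + 1)

/-- the sum of `1 / log m ∏ 1 / log |f_i(m)|` over the `m ≥ 2` in `(u, v]` with all `|f_i(m)| ≥ 2` -/
noncomputable def mainSum {k : ℕ} (f : Fin k → ℤ[X]) (u v : ℕ) : ℝ :=
  ∑ m ∈ (Ioc u v).filter (fun m : ℕ => 2 ≤ m ∧ ∀ i, 2 ≤ |(f i).eval (m : ℤ)|),
    1 / Real.log m * ∏ i, 1 / Real.log (((|(f i).eval (m : ℤ)| : ℤ)) : ℝ)

/-- **Prime arguments, almost all polynomials, all windows.** Let `k ≥ 1`, `d ≥ 2` and `U, K ≥ 0`. There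
are `C₀`, `E₁` such that the following holds for every `E` if `x ≥ x₀(E)`. Let
`(log x)^E₁ ≤ z ≤ (log x)^E`, `(log x)^C₀ ≤ D ≤ x^K` and `D x (log x)^(-K) ≤ B ≤ D x (log x)^K`. Let
`P_1, …, P_k` be integral polynomials of degrees less than `d` with `|P_i(m)| ≤ B (log x)^K` for
`1 ≤ m ≤ x`, and let `c_1, …, c_k` be nonzero integers with `|c_i| ≤ B x (log x)^K`. For all but
`(D B)^k / (log x)^U` of the `e = ((a_1, b_1), …, (a_k, b_k))` with `1 ≤ a_i ≤ D` and `1 ≤ b_i ≤ B`, the
following holds for `f_i = X (P_i + a_i X + b_i) + c_i`: if these are not constant and `X f_1 ⋯ f_k` has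
no fixed prime divisor, then for all `u ≤ v ≤ x` the number of the primes `p` in `(u, v]` with all
`|f_i(p)|` prime differs from `𝔖_z(f) ∑ 1 / (log m ∏ log |f_i(m)|)` by at most
`𝔖_z(f) x / (log x)^U`. -/
theorem result (k d U K : ℕ) (hk : 1 ≤ k) (hd : 2 ≤ d) : ∃ C₀ E₁ : ℕ, ∀ E : ℕ, ∃ x₀ : ℕ, ∀ x : ℕ, x₀ ≤ x → ∀ z : ℕ,
    Real.log x ^ E₁ ≤ z → (z : ℝ) ≤ Real.log x ^ E → ∀ D B : ℕ, Real.log x ^ C₀ ≤ D → (D : ℝ) ≤ (x : ℝ) ^ K →
    (D : ℝ) * x ≤ B * Real.log x ^ K → (B : ℝ) ≤ D * x * Real.log x ^ K →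
    ∀ P : Fin k → ℤ[X], (∀ i, (P i).natDegree + 1 ≤ d) →
    (∀ i, ∀ m ∈ Icc 1 x, ((|(P i).eval (m : ℤ)| : ℤ) : ℝ) ≤ B * Real.log x ^ K) →
    ∀ c : Fin k → ℤ, (∀ i, c i ≠ 0) → (∀ i, ((|c i| : ℤ) : ℝ) ≤ B * x * Real.log x ^ K) →
    ∃ Bad ⊆ Fintype.piFinset (fun _ : Fin k => Icc 1 D ×ˢ Icc 1 B),
      (#Bad : ℝ) ≤ ((D : ℝ) * B) ^ k / Real.log x ^ U ∧
      ∀ e ∈ Fintype.piFinset (fun _ : Fin k => Icc 1 D ×ˢ Icc 1 B), e ∉ Bad →
        ∀ f : Fin k → ℤ[X], (∀ i, f i = poly (P i) (e i).1 (e i).2 (c i)) → (∀ i, 1 ≤ (f i).natDegree) → NoFixed f →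
        ∀ u v : ℕ, u ≤ v → v ≤ x →
          |(count f u v : ℝ) - sing f z * mainSum f u v| ≤ sing f z * x / Real.log x ^ U :=
  Pool.Agent.Y868.TC.Arg.final k d U K hk hd

end Pool.Agent.Results.MP_82233c_nt.AlmostAllPolynomials
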