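import Pool.Agent.Y532.QuadOne

set_option autoImplicit false

/-!
# Regular neighbourhoods of the primes `p` with `p ^ 2 + p + 1` prime

Let `R r` be the set of the `n` for which all prime factors of `n` and of `n ^ 2 + n + 1` are larger
than `n ^ (1 / r)`; it contains all primes `p` with `p ^ 2 + p + 1` prime. For an ARBITRARY subset `A`
of `R r`, in every short interval all but a small proportion of the elements of `A` are regular points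
of `A`.
-/

namespace Pool.Agent.Results.MP_82233c_nt.RegularPoints

open Finset Filter
open Pool.Agent.TH977.PW (N Irregular)
open Pool.Agent.Y532

/-- All prime factors of `n` and of `n ^ 2 + n + 1` are larger than `n ^ (1 / r)`. -/
def R (r : ℕ) : Set ℕ :=
  {n | (∀ p : ℕ, p.Prime → p ∣ n → (n : ℝ) ^ (1 / (r : ℝ)) < (p : ℝ)) ∧
    ∀ p : ℕ, p.Prime → p ∣ n ^ 2 + n + 1 → (n : ℝ) ^ (1 / (r : ℝ)) < (p : ℝ)}

/-- **Regular neighbourhoods of the primes `p` with `p ^ 2 + p + 1` prime.** -/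
theorem result (θ : ℝ) (hθ : 0 < θ) (hθ1 : θ ≤ 1) :
    ∃ r₀ : ℕ, 2 ≤ r₀ ∧ ∀ r : ℕ, r₀ ≤ r →
      (∀ p : ℕ, p.Prime → (p ^ 2 + p + 1).Prime → p ∈ R r) ∧
      (∃ κ : ℝ, 0 < κ ∧ ∀ᶠ X : ℕ in atTop, κ * X / Real.log X ^ 2 ≤
          N {p | p ∈ R r ∧ p.Prime ∧ (p ^ 2 + p + 1).primeFactorsList.length ≤ r} X (2 * X)) ∧
      ∀ ε : ℝ, 0 < ε → ∃ c : ℝ, 0 < c ∧ ∀ δ : ℝ, 0 < δ → ∃ B : ℕ,
        ∀ᶠ X : ℕ in atTop, ∀ Y : ℕ, (X : ℝ) ^ θ ≤ Y → 2 * Y ≤ X → ∀ A : Set ℕ, A ⊆ R r →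
          (N (Irregular A 2 c δ B X Y) X (X + Y) : ℝ) ≤ ε * Y / Real.log X ^ 2 := by
  obtain ⟨r0, hr0, h0⟩ := Pool.Agent.TH977.PW.final_quad_prime 1 1 1 one_pos hg1 hD1 hadm1 R
    (fun r => {p | p ∈ R r ∧ p.Prime ∧ (p ^ 2 + p + 1).primeFactorsList.length ≤ r})
    (fun r m _ hm => ⟨hm.1, fun p hp hd => by
      rw [val_eq, Int.natCast_dvd_natCast] at hd
      exact hm.2 p hp hd⟩)
    (fun r m h2r hm h1 h2 => ⟨⟨fun p hp hd => Pool.Agent.TH977.PW.rpow_lt_dvd r m p h2r hm hp hd,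
      fun p hp hd => h1 p hp (by rw [val_eq, Int.natCast_dvd_natCast]; exact hd)⟩, hm, by
        rw [val_eq, Int.natAbs_natCast] at h2
        exact h2⟩) θ hθ hθ1
  refine ⟨r0, hr0, fun r hr => ⟨?_, (h0 r hr).1, (h0 r hr).2⟩⟩
  intro n hn hn2
  have h2r : 2 ≤ r := hr0.trans hr
  refine ⟨fun p hp hd => Pool.Agent.TH977.PW.rpow_lt_dvd r n p h2r hn hp hd, fun p hp hd => ?_⟩
  rw [(Nat.prime_dvd_prime_iff_eq hp hn2).1 hd]
  exact Pool.Agent.TH977.PW.rpow_lt_of_le r n _ h2r hn.two_le (by nlinarith)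

end Pool.Agent.Results.MP_82233c_nt.RegularPoints
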