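import Pool.Agent.W182.PW.Main
import Pool.Agent.Y532.QuadOne

set_option autoImplicit false

/-!
# Primes `p` with `p ^ 2 + p + 1` almost prime in all windows around a positive proportion of the
integers
-/

namespace Pool.Agent.Results.MP_82233c_nt.RegularWindows

open Finset Filter

/-- `p` is prime and `p ^ 2 + p + 1` has at most `r` prime factors (with multiplicity), all of them
larger than `z`. -/
def AlmostPair (r : ℕ) (z : ℝ) (p : ℕ) : Prop :=
  p.Prime ∧ (p ^ 2 + p + 1).primeFactorsList.length ≤ r ∧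
    ∀ q : ℕ, q.Prime → q ∣ p ^ 2 + p + 1 → z < (q : ℝ)

open Classical in
/-- `n` is regular: all windows `(a, b]` around `n` of length between `K log² n` and `n` contain the
right order of primes `p` with `p ^ 2 + p + 1` almost prime. -/
def Regular (r : ℕ) (c₁ c₂ K : ℝ) (n : ℕ) : Prop :=
  ∀ a b : ℕ, a ≤ n → n ≤ b → K * Real.log n ^ 2 ≤ (b : ℝ) - a → (b : ℝ) - a ≤ n →
    c₁ * ((b : ℝ) - a) / Real.log n ^ 2 ≤
      (((Finset.Ioc a b).filter (fun p => AlmostPair r ((n : ℝ) ^ (1 / (r : ℝ))) p)).card : ℝ) ∧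
    (((Finset.Ioc a b).filter (fun p => AlmostPair r ((n : ℝ) ^ (1 / (r : ℝ))) p)).card : ℝ) ≤
      c₂ * ((b : ℝ) - a) / Real.log n ^ 2

open Pool.Agent.W182.PW Pool.Agent.TH464.PW Pool.Agent.Y532

lemma qu_eval (m : ℕ) : (quad 1 1 1).eval (m : ℤ) = ((m ^ 2 + m + 1 : ℕ) : ℤ) := by
  rw [quad_eval, val_eq]

lemma prime_almost : PrimeAlmost (fun _ : Fin 1 => quad 1 1 1) = AlmostPair := by
  funext r z p
  refine propext ?_
  unfold PrimeAlmost AlmostPair
  constructor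
  · rintro ⟨h1, h2⟩
    have h3 := h2 0
    simp only [qu_eval p, Int.natAbs_natCast] at h3
    exact ⟨h1, h3.1, fun q hq hd => h3.2 q hq (Int.natCast_dvd_natCast.2 hd)⟩
  · rintro ⟨h1, h2, h3⟩
    refine ⟨h1, fun _ => ?_⟩
    simp only [qu_eval p, Int.natAbs_natCast]
    exact ⟨h2, fun q hq hd => h3 q hq (Int.natCast_dvd_natCast.1 hd)⟩

lemma reg_eq : RegularP (fun _ : Fin 1 => quad 1 1 1) (1 + 1) = Regular := by
  funext r c₁ c₂ K n
  unfold RegularP Regular
  rw [prime_almost]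

open Classical in
/-- **Primes `p` with `p ^ 2 + p + 1` almost prime: regular windows.** For some `r` and positive
`c₁, c₂, K, κ` and all large `x` at least `κ x` of the integers `n` in `[1, x]` are regular. -/
theorem result : ∃ (r : ℕ) (c₁ c₂ K κ : ℝ), 0 < c₁ ∧ 0 < c₂ ∧ 0 < K ∧ 0 < κ ∧
    ∀ᶠ x : ℕ in atTop,
      κ * x ≤ (((Finset.Icc 1 x).filter (fun n => Regular r c₁ c₂ K n)).card : ℝ) := by
  have h := main (fun _ : Fin 1 => quad 1 1 1)
    (fun _ => quad_irr 1 1 1 one_ne_zero hg1 hD1)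
    (fun _ => by rw [quad_deg 1 1 1 one_ne_zero]; norm_num)
    (fun _ => by rw [quad_lead 1 1 1 one_ne_zero]; norm_num) (fun _ _ _ => Subsingleton.elim _ _)
    (fun _ h => by
      have h1 := quad_deg 1 1 1 one_ne_zero
      rw [h, Polynomial.natDegree_X] at h1
      omega) (fun p hp => by
      obtain ⟨m, h1, h2⟩ := hadm1 p hp
      refine ⟨m, h1, fun _ => ?_⟩
      rw [quad_eval]
      exact h2)
  have h' : ∃ (r : ℕ) (c₁ c₂ K κ : ℝ), 0 < c₁ ∧ 0 < c₂ ∧ 0 < K ∧ 0 < κ ∧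
    ∀ᶠ x : ℕ in atTop,
      κ * x ≤ (((Finset.Icc 1 x).filter
        (fun n => RegularP (fun _ : Fin 1 => quad 1 1 1) (1 + 1) r c₁ c₂ K n)).card : ℝ) := h
  rw [reg_eq] at h'
  exact h'

end Pool.Agent.Results.MP_82233c_nt.RegularWindows
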